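import Pool.Agent.W645.WV.Stm

/-!
Project WV (helper645), part YNG: Young's inequality.
-/

set_option autoImplicit false

open MeasureTheory Set Complex
open scoped ENNReal

namespace Pool.Agent.W977.WV

/-- Hoelder's inequality with a weight -/
theorem holder_weight {α : Type} [MeasurableSpace α] (μ : Measure α) {k g : α → ℝ≥0∞}
    (hk : Measurable k) (hg : Measurable g) {p : ℝ} (hp : 1 ≤ p) :
    (∫⁻ a, k a * g a ∂μ) ^ p ≤ (∫⁻ a, k a ∂μ) ^ (p - 1) * ∫⁻ a, k a * g a ^ p ∂μ := by
  rcases hp.eq_or_lt with rfl | hp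
  · simp
  · set q := Real.conjExponent p with hq
    have hpq : p.HolderConjugate q := Real.HolderConjugate.conjExponent hp
    have hp0 : 0 < p := hpq.pos
    have hq0 : 0 < q := hpq.symm.pos
    have h1 := ENNReal.lintegral_mul_le_Lp_mul_Lq μ hpq
      (f := fun a => k a ^ (1 / p) * g a) (g := fun a => k a ^ (1 / q))
      ((hk.pow_const _).mul hg).aemeasurable (hk.pow_const _).aemeasurable
    have h2 : ∀ a, ((fun a => k a ^ (1 / p) * g a) * (fun a => k a ^ (1 / q))) a = k a * g a := by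
      intro a
      simp only [Pi.mul_apply]
      have h3 : k a ^ (1 / p) * k a ^ (1 / q) = k a := by
        rw [← ENNReal.rpow_add_of_nonneg _ _ (by positivity) (by positivity), one_div, one_div,
          hpq.inv_add_inv_eq_one, ENNReal.rpow_one]
      calc k a ^ (1 / p) * g a * k a ^ (1 / q) = (k a ^ (1 / p) * k a ^ (1 / q)) * g a := by ring
        _ = k a * g a := by rw [h3]
    have h4 : ∀ a, (k a ^ (1 / p) * g a) ^ p = k a * g a ^ p := by
      intro a
      rw [ENNReal.mul_rpow_of_nonneg _ _ hp0.le, ← ENNReal.rpow_mul, one_div_mul_cancel hp0.ne',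
        ENNReal.rpow_one]
    have h5 : ∀ a, (k a ^ (1 / q)) ^ q = k a := by
      intro a
      rw [← ENNReal.rpow_mul, one_div_mul_cancel hq0.ne', ENNReal.rpow_one]
    simp only [h2, h4, h5] at h1
    have h6 := ENNReal.rpow_le_rpow h1 hp0.le
    refine h6.trans (le_of_eq ?_)
    rw [ENNReal.mul_rpow_of_nonneg _ _ hp0.le, ← ENNReal.rpow_mul, ← ENNReal.rpow_mul,
      one_div_mul_cancel hp0.ne', ENNReal.rpow_one, mul_comm]
    congr 2
    rw [hq, Real.conjExponent]
    have : p - 1 ≠ 0 := by linarith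
    field_simp

theorem yng : Pool.Agent.W645.WV.S_YNG := by
  intro n K f hK hf p hp
  have hp0 : 0 ≤ p := by linarith
  set k : (Fin n → ℝ) → ℝ≥0∞ := fun x => ‖K x‖ₑ with hk
  set g : (Fin n → ℝ) → ℝ≥0∞ := fun x => ‖f x‖ₑ with hg
  have mk : Measurable k := hK.enorm
  have mg : Measurable g := hf.enorm
  have mkx : ∀ x : Fin n → ℝ, Measurable (fun y => k (x - y)) := fun x =>
    mk.comp (measurable_const.sub measurable_id)
  have h1 : ∀ x, ‖∫ y, K (x - y) * f y‖ₑ ^ p ≤
      (∫⁻ x, k x) ^ (p - 1) * ∫⁻ y, k (x - y) * g y ^ p := by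
    intro x
    have h2 : ‖∫ y, K (x - y) * f y‖ₑ ≤ ∫⁻ y, k (x - y) * g y := by
      refine (enorm_integral_le_lintegral_enorm _).trans (le_of_eq ?_)
      apply lintegral_congr
      intro y
      exact enorm_mul _ _
    refine (ENNReal.rpow_le_rpow h2 hp0).trans ?_
    refine (holder_weight volume (mkx x) mg hp).trans (le_of_eq ?_)
    rw [lintegral_sub_left_eq_self k x]
  calc ∫⁻ x, ‖∫ y, K (x - y) * f y‖ₑ ^ p
      ≤ ∫⁻ x, (∫⁻ x, k x) ^ (p - 1) * ∫⁻ y, k (x - y) * g y ^ p := lintegral_mono h1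
    _ = (∫⁻ x, k x) ^ (p - 1) * ∫⁻ x, ∫⁻ y, k (x - y) * g y ^ p := by
        have mm : Measurable (Function.uncurry fun (x y : Fin n → ℝ) => k (x - y) * g y ^ p) :=
          (mk.comp (measurable_fst.sub measurable_snd)).mul ((mg.comp measurable_snd).pow_const p)
        exact lintegral_const_mul _ mm.lintegral_prod_right'
    _ = (∫⁻ x, k x) ^ (p - 1) * ∫⁻ y, ∫⁻ x, k (x - y) * g y ^ p := by
        congr 1
        apply lintegral_lintegral_swap
        exact ((mk.comp (measurable_fst.sub measurable_snd)).mul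
          ((mg.comp measurable_snd).pow_const p)).aemeasurable
    _ = (∫⁻ x, k x) ^ (p - 1) * ∫⁻ y, (∫⁻ x, k x) * g y ^ p := by
        congr 1
        apply lintegral_congr
        intro y
        have mky : Measurable (fun x => k (x - y)) :=
          mk.comp (measurable_id.sub measurable_const)
        rw [lintegral_mul_const _ mky, lintegral_sub_right_eq_self k y]
    _ = (∫⁻ x, k x) ^ (p - 1) * ((∫⁻ x, k x) * ∫⁻ y, g y ^ p) := by
        rw [lintegral_const_mul _ (mg.pow_const p)]
    _ = (∫⁻ x, k x) ^ p * ∫⁻ y, g y ^ p := by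
        rw [← mul_assoc]
        congr 1
        have h3 : (∫⁻ x, k x) ^ (p - 1) * (∫⁻ x, k x) ^ (1 : ℝ) = (∫⁻ x, k x) ^ p := by
          rw [← ENNReal.rpow_add_of_nonneg _ _ (by linarith) (by norm_num)]
          congr 1
          ring
        rwa [ENNReal.rpow_one] at h3

end Pool.Agent.W977.WV
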